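import Mathlib

/-!
# Read-k branching programs of bounded width: definitions
-/

namespace Pool.Agent.Helper4.RK

open MvPolynomial

/-- The product of the layers of a program. -/
noncomputable def lprod {n : ℕ} {ι : Type} [Fintype ι] [DecidableEq ι]
    (L : List (Fin n × Matrix ι ι (Polynomial ℂ))) : Matrix ι ι (MvPolynomial (Fin n) ℂ) :=
  (L.map fun p => p.2.map fun q => Polynomial.aeval (X p.1 : MvPolynomial (Fin n) ℂ) q).prod

/-- Programs with the states `ι` reading every variable at most `k` times. -/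
def RKi {n : ℕ} (ι : Type) [Fintype ι] [DecidableEq ι] (k : ℕ) (f : MvPolynomial (Fin n) ℂ) : Prop :=
  ∃ (L : List (Fin n × Matrix ι ι (Polynomial ℂ))) (u v : ι → ℂ),
    (∀ i, (L.map Prod.fst).count i ≤ k) ∧ f = ∑ i, ∑ j, C (u i) * lprod L i j * C (v j)

/-- Programs of width `w` reading every variable at most `k` times. -/
def IsRK {n : ℕ} (w k : ℕ) (f : MvPolynomial (Fin n) ℂ) : Prop := RKi (Fin w) k f

/-- The number of positions in `[a, b)` reading the variable `i`. -/
def cnt (v : ℕ → ℕ) (a b i : ℕ) : ℕ := ((Finset.Ico a b).filter fun l => v l = i).card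

/-- On `[a, b)` every variable of `s` occurs, and the occurrences of two different variables of `s`
do not interleave. -/
def Clustered (v : ℕ → ℕ) (a b : ℕ) (s : Finset ℕ) : Prop :=
  (∀ i ∈ s, 1 ≤ cnt v a b i) ∧ ∀ i ∈ s, ∀ j ∈ s, i ≠ j →
    (∀ l l', a ≤ l → l < b → a ≤ l' → l' < b → v l = i → v l' = j → l < l') ∨
    (∀ l l', a ≤ l → l < b → a ≤ l' → l' < b → v l = i → v l' = j → l' < l)

/-- The bound of the cluster lemma. -/
def Tc : ℕ → ℕ → ℕ
  | 0, _ => 1
  | k + 1, t => t * (Tc k (Tc k t) + 1)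

end Pool.Agent.Helper4.RK
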