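import Mathlib
import Pool.Agent.Helper4.RO.Near
import Pool.Agent.Helper4.RK.Defs

/-!
# The modification step for pieces read in groups
-/

namespace Pool.Agent.Helper4.RK

set_option linter.unusedSectionVars false
set_option linter.unusedDecidableInType false

open Matrix Pool.Agent.Helper4.RO

section

variable {F : Type*} [Field F] {κ : Type*} [Fintype κ] [DecidableEq κ] {g : ℕ}

/-! ### Functionals -/

/-- The value of a linear functional on a tensor product of matrices. -/
def fv (lam : (Fin g → κ × κ) → F) (T : Fin g → Matrix κ κ F) : F :=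
  ∑ K, lam K * ∏ b, T b (K b).1 (K b).2

theorem fv_eq (lam : (Fin g → κ × κ) → F) (T : Fin g → Matrix κ κ F) :
    fv lam T = ∑ a : Fin g → κ, ∑ b : Fin g → κ, lam (fun c => (a c, b c)) * tq T a b := by
  rw [fv, ← Equiv.sum_comp (Equiv.arrowProdEquivProdArrow (Fin g) (fun _ => κ) (fun _ => κ)).symm,
    Fintype.sum_prod_type]
  rfl

theorem fv_transpose (ε : Fin g → Prop) [∀ b, Decidable (ε b)]
    (lam : (Fin g → κ × κ) → F) (T : Fin g → Matrix κ κ F) :
    fv lam (fun b => if ε b then (T b)ᵀ else T b) =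
      fv (fun K => lam fun b => if ε b then (K b).swap else K b) T := by
  rw [fv, fv]
  have hinv : Function.Involutive fun (K : Fin g → κ × κ) b => if ε b then (K b).swap else K b := by
    intro K
    funext b
    dsimp only
    split_ifs
    · exact Prod.swap_swap _
    · rfl
  rw [← Equiv.sum_comp hinv.toPerm]
  refine Finset.sum_congr rfl fun K _ => ?_
  rw [Function.Involutive.coe_toPerm]
  congr 1
  refine Finset.prod_congr rfl fun b _ => ?_
  split_ifs
  · rfl
  · rfl

theorem exists_entry : ∀ (g : ℕ) (b : κ), ∃ lam : κ → (Fin g → κ × κ) → F,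
    ∀ (Z : Fin g → Matrix κ κ F) (a : κ), (List.ofFn Z).prod a b = fv (lam a) Z := by
  intro g
  induction g with
  | zero =>
    intro b
    refine ⟨fun a _ => (1 : Matrix κ κ F) a b, fun Z a => ?_⟩
    rw [fv, List.ofFn_zero, List.prod_nil, Fintype.sum_eq_single (fun i => i.elim0)]
    · rw [Finset.univ_eq_empty, Finset.prod_empty, mul_one]
    · intro K hK
      exact absurd (funext fun i => i.elim0) hK
  | succ g ih =>
    intro b
    obtain ⟨lam, hlam⟩ := ih b
    refine ⟨fun a K => if (K 0).1 = a then lam (K 0).2 (fun j => K j.succ) else 0, fun Z a => ?_⟩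
    have h : fv (fun K : Fin (g + 1) → κ × κ =>
        if (K 0).1 = a then lam (K 0).2 (fun j => K j.succ) else 0) Z =
        ∑ c, ∑ K : Fin g → κ × κ, lam c K *
          (Z 0 a c * ∏ j : Fin g, Z j.succ (K j).1 (K j).2) := by
      rw [fv, ← Equiv.sum_comp (Fin.consEquiv fun _ : Fin (g + 1) => κ × κ),
        Fintype.sum_prod_type, Fintype.sum_prod_type, Finset.sum_eq_single a]
      · refine Finset.sum_congr rfl fun c _ => Finset.sum_congr rfl fun K _ => ?_
        rw [Fin.prod_univ_succ]
        simp only [Fin.consEquiv, Equiv.coe_fn_mk, Fin.cons_zero, Fin.cons_succ, if_true]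
      · intro a' _ ha'
        refine Finset.sum_eq_zero fun c _ => Finset.sum_eq_zero fun K _ => ?_
        simp only [Fin.consEquiv, Equiv.coe_fn_mk, Fin.cons_zero, if_neg ha', zero_mul]
      · intro h
        exact absurd (Finset.mem_univ a) h
    rw [h, List.ofFn_succ, List.prod_cons, Matrix.mul_apply]
    refine Finset.sum_congr rfl fun c _ => ?_
    rw [hlam, fv, Finset.mul_sum]
    refine Finset.sum_congr rfl fun K _ => ?_
    ring

theorem exists_lam (g : ℕ) (u w : κ → F) : ∃ lam : (Fin g → κ × κ) → F,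
    ∀ Z : Fin g → Matrix κ κ F, u ⬝ᵥ ((List.ofFn Z).prod *ᵥ w) = fv lam Z := by
  choose lam hlam using fun b : κ => exists_entry (F := F) g b
  refine ⟨fun K => ∑ a, ∑ b, u a * w b * lam b a K, fun Z => ?_⟩
  rw [fv]
  simp only [Finset.sum_mul]
  rw [Finset.sum_comm, dotProduct]
  refine Finset.sum_congr rfl fun a _ => ?_
  rw [Finset.sum_comm, Matrix.mulVec, dotProduct, Finset.mul_sum]
  refine Finset.sum_congr rfl fun b _ => ?_
  rw [hlam, fv, Finset.sum_mul, Finset.mul_sum]
  refine Finset.sum_congr rfl fun K _ => ?_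
  ring

/-! ### Groups -/

theorem seg_group' {R : Type*} [Semiring R] (A : ℕ → Matrix κ κ R) (st : ℕ → ℕ) {a c : ℕ}
    (hac : a ≤ c) (hst : ∀ s, a ≤ s → s < c → st s ≤ st (s + 1)) :
    st a ≤ st c ∧ seg (fun s => seg A (st s) (st (s + 1))) a c = seg A (st a) (st c) := by
  induction c, hac using Nat.le_induction with
  | base => exact ⟨le_rfl, by rw [seg_self, seg_self]⟩
  | succ c hc ih =>
    obtain ⟨h1, h2⟩ := ih fun s hs hs' => hst s hs (hs'.trans (Nat.lt_succ_self c))
    have h3 := hst c hc (Nat.lt_succ_self c)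
    exact ⟨h1.trans h3, by rw [seg_succ _ hc, h2, seg_mul _ h1 h3]⟩

/-- The grouped layers. -/
noncomputable def rg (M : ℕ → Matrix κ κ (Polynomial F)) (v : ℕ → ℕ) (E : ℕ → F) (i p : ℕ → ℕ)
    (s : ℕ) : Matrix κ κ (Polynomial F) :=
  seg (fun l => if v l = i s then M l else
    (M l).map fun q => Polynomial.C (q.eval (E (v l)))) (p s) (p (s + 1))

theorem rg_eval {M : ℕ → Matrix κ κ (Polynomial F)} {v : ℕ → ℕ} {E : ℕ → F} {p i : ℕ → ℕ}
    {N s : ℕ} (hs : s < N) (hi : ∀ s < N, ∀ s' < N, i s = i s' → s = s')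
    (hread : ∀ l, p s ≤ l → l < p (s + 1) → ∀ s' < N, s' ≠ s → v l ≠ i s') (X : ℕ → F) :
    (rg M v E i p s).map (Polynomial.eval (X s)) =
      segx M v (setp i N X E) (p s) (p (s + 1)) := by
  have h1 := seg_map (fun l => if v l = i s then M l else
    (M l).map fun q => Polynomial.C (q.eval (E (v l)))) (Polynomial.evalRingHom (X s))
    (p s) (p (s + 1))
  refine Eq.trans h1 ?_
  apply seg_congr
  intro l hl hl'
  by_cases h : v l = i s
  · rw [if_pos h, ev, h, setp_mem hi X E hs]
    rfl
  · rw [if_neg h, ev, setp_not]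
    · ext a b
      simp only [Matrix.map_apply, Polynomial.coe_evalRingHom, Polynomial.eval_C]
    · intro s' hs' hs'l
      by_cases hss : s' = s
      · exact h (by rw [← hs'l, hss])
      · exact hread l hl hl' s' hs' hss hs'l.symm

/-- The step for pieces in which the chosen variables are read in increasing groups. -/
theorem step_inc [Infinite F] {N W : ℕ} (lam : (Fin g → κ × κ) → F) (C : Fin g → Chain F κ)
    (hW : (Fintype.card κ ^ g) ^ 2 ≤ W) (E : ℕ → F) (i : ℕ → ℕ)
    (hi : ∀ s < N, ∀ s' < N, i s = i s' → s = s') (p : Fin g → ℕ → ℕ)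
    (hp : ∀ b, ∀ s < N, p b s ≤ p b (s + 1))
    (hread : ∀ b, ∀ s < N, ∀ l, p b s ≤ l → l < p b (s + 1) → ∀ s' < N, s' ≠ s →
      (C b).v l ≠ i s')
    (hmax : ∀ b a c, 1 ≤ a → a ≤ c → c < N → ∀ x : ℕ → F,
      (segx (C b).M (C b).v x (p b a) (p b c)).rank ≤
      (segx (C b).M (C b).v E (p b a) (p b c)).rank)
    (x : ℕ → F) (hx : ∀ j, (∀ s < N, i s ≠ j) → x j = E j)
    (hne : fv lam (fun b => segx (C b).M (C b).v x (p b 0) (p b N)) ≠ 0) :
    ∃ S ⊆ Finset.range N, S.card ≤ Tb W ∧ ∃ x', (∀ j, (∀ s ∈ S, i s ≠ j) → x' j = E j) ∧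
      fv lam (fun b => segx (C b).M (C b).v x' (p b 0) (p b N)) ≠ 0 := by
  classical
  set M' : ℕ → Matrix (Fin g → κ) (Fin g → κ) (Polynomial F) := fun s =>
    tq fun b => rg (C b).M (C b).v E i (p b) s with hM'
  have hseg : ∀ (X : ℕ → F) (a c : ℕ), a ≤ c → c ≤ N → seg (ev M' X) a c =
      tq fun b => segx (C b).M (C b).v (setp i N X E) (p b a) (p b c) := by
    intro X a c hac hc
    have h1 : seg (ev M' X) a c = seg (fun s => tq fun b =>
        segx (C b).M (C b).v (setp i N X E) (p b s) (p b (s + 1))) a c := by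
      apply seg_congr
      intro s _ hs
      have h2 : ev M' X s = tq fun b =>
          (rg (C b).M (C b).v E i (p b) s).map (Polynomial.eval (X s)) :=
        tq_map (Polynomial.evalRingHom (X s)) _
      rw [h2]
      congr 1
      funext b
      exact rg_eval (by omega) hi (hread b s (by omega)) X
    rw [h1, seg_tq]
    congr 1
    funext b
    exact (seg_group' (ev (C b).M fun l => setp i N X E ((C b).v l)) (p b) hac
      fun s _ hs => hp b s (by omega)).2
  have hval : ∀ X : ℕ → F, ∑ a : Fin g → κ, ∑ b : Fin g → κ,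
      lam (fun c => (a c, b c)) * seg (ev M' X) 0 N a b =
      fv lam (fun b => segx (C b).M (C b).v (setp i N X E) (p b 0) (p b N)) := by
    intro X
    rw [fv_eq, hseg X 0 N (Nat.zero_le _) le_rfl]
  have hEself : ∀ X : ℕ → F, (∀ s < N, X s = E (i s)) → setp i N X E = E := by
    intro X hX
    funext j
    by_cases h : ∃ s < N, i s = j
    · obtain ⟨s, hs, rfl⟩ := h
      rw [setp_mem hi X E hs, hX s hs]
    · exact setp_not X E fun s hs hsj => h ⟨s, hs, hsj⟩
  obtain ⟨S', hS', hc, X, hX, hX'⟩ := modif_fun M' N W (by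
      rw [Fintype.card_fun, Fintype.card_fin, ← sq]
      exact hW) (fun s => E (i s))
    (fun a b => lam (fun c => (a c, b c))) (by
      intro a c ha hac hc X
      rw [hseg X a c hac hc.le, hseg _ a c hac hc.le, hEself _ fun _ _ => rfl]
      apply tq_rank_le
      intro b
      exact hmax b a c ha hac hc _)
    ⟨fun s => x (i s), by
      rw [hval]
      have h1 : setp i N (fun s => x (i s)) E = x := by
        funext j
        by_cases h : ∃ s < N, i s = j
        · obtain ⟨s, hs, rfl⟩ := h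
          rw [setp_mem hi _ E hs]
        · rw [setp_not _ E fun s hs hsj => h ⟨s, hs, hsj⟩]
          exact (hx j fun s hs hsj => h ⟨s, hs, hsj⟩).symm
      rw [h1]
      exact hne⟩
  rw [hval] at hX'
  refine ⟨S', hS', hc, _, ?_, hX'⟩
  intro j hj
  by_cases h : ∃ s < N, i s = j
  · obtain ⟨s, hs, rfl⟩ := h
    rw [setp_mem hi X E hs]
    apply hX
    intro hsS
    exact hj s hsS rfl
  · exact setp_not X E fun s hs hsj => h ⟨s, hs, hsj⟩

end

end Pool.Agent.Helper4.RK
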