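import Mathlib
import Pool.Agent.Helper91.Clus
import Pool.Agent.Helper4.RK.Step

/-!
# The modification lemma for programs reading every variable at most `k` times
-/

namespace Pool.Agent.Helper4.RK

set_option linter.unusedSectionVars false
set_option linter.unusedDecidableInType false

open Matrix Pool.Agent.Helper4.RO Pool.Agent.Helper91.Clus

/-! ### Cuts and borders -/

theorem exists_cuts {v e : ℕ → ℕ} {t g a b : ℕ} (h : Pcs v e t g a b) (hab : a ≤ b) :
    ∃ c : ℕ → ℕ, c 0 = a ∧ c g = b ∧ (∀ j < g, c j ≤ c (j + 1)) ∧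
      (∀ j ≤ g, a ≤ c j ∧ c j ≤ b) ∧
      ∀ j < g, Inc v e t (c j) (c (j + 1)) ∨ Dec v e t (c j) (c (j + 1)) := by
  induction h with
  | @inc a b h =>
    refine ⟨fun j => if j = 0 then a else b, by simp, by simp, ?_, ?_, ?_⟩
    · intro j hj
      obtain rfl : j = 0 := by omega
      simpa using hab
    · intro j hj
      dsimp only
      split_ifs
      · exact ⟨le_rfl, hab⟩
      · exact ⟨hab, le_rfl⟩
    · intro j hj
      obtain rfl : j = 0 := by omega
      left
      simpa using h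
  | @dec a b h =>
    refine ⟨fun j => if j = 0 then a else b, by simp, by simp, ?_, ?_, ?_⟩
    · intro j hj
      obtain rfl : j = 0 := by omega
      simpa using hab
    · intro j hj
      dsimp only
      split_ifs
      · exact ⟨le_rfl, hab⟩
      · exact ⟨hab, le_rfl⟩
    · intro j hj
      obtain rfl : j = 0 := by omega
      right
      simpa using h
  | @cat a c b g g' hac hcb h h' ih ih' =>
    obtain ⟨d, h0, hg, hm, hb, hi⟩ := ih hac
    obtain ⟨d', h0', hg', hm', hb', hi'⟩ := ih' hcb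
    have e1 : ∀ j ≤ g, (if j < g then d j else d' (j - g)) = d j := by
      intro j hj
      split_ifs with h
      · rfl
      · obtain rfl : j = g := by omega
        rw [Nat.sub_self, h0', hg]
    have e2 : ∀ j, g ≤ j → (if j < g then d j else d' (j - g)) = d' (j - g) :=
      fun j hj => if_neg (by omega)
    refine ⟨fun j => if j < g then d j else d' (j - g), ?_, ?_, ?_, ?_, ?_⟩
    · exact (e1 0 (Nat.zero_le _)).trans h0
    · exact (e2 _ (Nat.le_add_right g g')).trans (by rw [Nat.add_sub_cancel_left]; exact hg')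
    · intro j hj
      dsimp only
      rcases Nat.lt_or_ge j g with h | h
      · rw [e1 j h.le, e1 (j + 1) h]
        exact hm j h
      · rw [e2 j h, e2 (j + 1) (by omega), show j + 1 - g = j - g + 1 by omega]
        exact hm' _ (by omega)
    · intro j hj
      dsimp only
      rcases Nat.lt_or_ge j g with h | h
      · rw [e1 j h.le]
        have := hb j h.le
        omega
      · rw [e2 j h]
        have := hb' (j - g) (by omega)
        omega
    · intro j hj
      dsimp only
      rcases Nat.lt_or_ge j g with h | h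
      · rw [e1 j h.le, e1 (j + 1) h]
        exact hi j h
      · rw [e2 j h, e2 (j + 1) (by omega), show j + 1 - g = j - g + 1 by omega]
        exact hi' _ (by omega)

/-- The borders of the groups of a piece. -/
def bdr (v e : ℕ → ℕ) (N a b s : ℕ) : ℕ :=
  if s < N then max a (((Finset.Ico a b ×ˢ Finset.range s).filter fun p => v p.1 = e p.2).sup
    fun p => p.1 + 1) else b

section

variable {v e : ℕ → ℕ} {N a b : ℕ}

theorem bdr_last : bdr v e N a b N = b := if_neg (lt_irrefl N)

theorem bdr_zero (hN : 0 < N) : bdr v e N a b 0 = a := by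
  rw [bdr, if_pos hN, Finset.range_zero, Finset.product_empty, Finset.filter_empty,
    Finset.sup_empty]
  exact max_eq_left (Nat.zero_le a)

theorem le_bdr (hab : a ≤ b) (s : ℕ) : a ≤ bdr v e N a b s := by
  rw [bdr]
  split_ifs
  · exact le_max_left _ _
  · exact hab

theorem bdr_le (hab : a ≤ b) (s : ℕ) : bdr v e N a b s ≤ b := by
  rw [bdr]
  split_ifs
  · refine max_le hab (Finset.sup_le ?_)
    rintro ⟨l, s'⟩ h
    rw [Finset.mem_filter, Finset.mem_product, Finset.mem_Ico] at h
    exact h.1.1.2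
  · exact le_rfl

theorem bdr_mono (hab : a ≤ b) (s : ℕ) : bdr v e N a b s ≤ bdr v e N a b (s + 1) := by
  rcases Nat.lt_or_ge (s + 1) N with h | h
  · rw [bdr, bdr, if_pos (by omega), if_pos h]
    refine max_le_max le_rfl (Finset.sup_mono (Finset.filter_subset_filter _
      (Finset.product_subset_product_right (Finset.range_mono (Nat.le_succ s)))))
  · have h1 : bdr v e N a b (s + 1) = b := if_neg (by omega)
    rw [h1]
    exact bdr_le hab s

theorem bdr_read (hab : a ≤ b) (h : Inc v e N a b) {s l s' : ℕ} (hs : s < N)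
    (hl : bdr v e N a b s ≤ l) (hl' : l < bdr v e N a b (s + 1)) (hs' : s' < N) (hne : s' ≠ s) :
    v l ≠ e s' := by
  intro hv
  have hal : a ≤ l := (le_bdr hab s).trans hl
  have hlb : l < b := hl'.trans_le (bdr_le hab _)
  rcases Nat.lt_or_gt_of_ne hne with h1 | h1
  · rw [bdr, if_pos hs] at hl
    have h2 : l + 1 ≤ ((Finset.Ico a b ×ˢ Finset.range s).filter fun p => v p.1 = e p.2).sup
        fun p => p.1 + 1 :=
      Finset.le_sup (f := fun p : ℕ × ℕ => p.1 + 1) (b := (l, s')) (Finset.mem_filter.2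
        ⟨Finset.mem_product.2 ⟨Finset.mem_Ico.2 ⟨hal, hlb⟩, Finset.mem_range.2 h1⟩, hv⟩)
    have h3 := (le_max_right a _).trans hl
    omega
  · rw [bdr, if_pos (by omega : s + 1 < N)] at hl'
    rcases lt_max_iff.1 hl' with h2 | h2
    · omega
    · rw [Finset.lt_sup_iff] at h2
      obtain ⟨⟨l', s''⟩, h3, h4⟩ := h2
      rw [Finset.mem_filter, Finset.mem_product, Finset.mem_Ico, Finset.mem_range] at h3
      have h5 := h s'' s' (by omega) hs' l' l h3.1.1.1 h3.1.1.2 hal hlb h3.2 hv
      dsimp only at h4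
      omega

theorem Dec.rev {n : ℕ} (hb : b ≤ n) (h : Dec v e N a b) :
    Inc (fun l => v (n - 1 - l)) e N (n - b) (n - a) := by
  intro s s' hs hs' i j hi hi' hj hj' h1 h2
  have := h s s' hs hs' (n - 1 - i) (n - 1 - j) (by omega) (by omega) (by omega) (by omega) h1 h2
  omega

end

section

variable {F : Type*} [Field F] {κ : Type*} [Fintype κ] [DecidableEq κ]

/-- Points at which all internal intervals of a chain have maximal rank. -/
def IGood (n : ℕ) (v : ℕ → ℕ) (M : ℕ → Matrix κ κ (Polynomial F)) (x₀ : ℕ → F) : Prop :=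
  ∀ i j, 1 ≤ i → i ≤ j → j < n → ∀ x : ℕ → F, (segx M v x i j).rank ≤ (segx M v x₀ i j).rank

theorem IGood.exists_poly {n : ℕ} {v : ℕ → ℕ} {M : ℕ → Matrix κ κ (Polynomial F)} {x₀ : ℕ → F}
    (h : IGood n v M x₀) :
    ∃ g : (ℕ → F) → F, IsPoly g ∧ g x₀ ≠ 0 ∧ ∀ y, g y ≠ 0 → IGood n v M y := by
  classical
  have h1 : ∀ p : ℕ × ℕ, ∃ g : (ℕ → F) → F, IsPoly g ∧ g x₀ ≠ 0 ∧
      ∀ y, g y ≠ 0 → (segx M v x₀ p.1 p.2).rank ≤ (segx M v y p.1 p.2).rank := by
    intro p
    obtain ⟨P, Q, hPQ⟩ := exists_mul_eq_one (segx M v x₀ p.1 p.2) le_rfl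
    refine ⟨fun x => (P * segx M v x p.1 p.2 * Q).det,
      (((MIsPoly.const P).mul (MIsPoly.segx M v _ _)).mul (MIsPoly.const Q)).det, ?_, ?_⟩
    · simp only [hPQ, Matrix.det_one]
      exact one_ne_zero
    · intro y hy
      exact le_rank_of_det_ne_zero _ _ _ hy
  choose g hg1 hg2 hg3 using h1
  refine ⟨fun x => ∏ p ∈ Finset.range (n + 1) ×ˢ Finset.range (n + 1), g p x,
    IsPoly.prod _ fun p _ => hg1 p, Finset.prod_ne_zero_iff.2 fun p _ => hg2 p, ?_⟩
  intro y hy i j hi hij hj x
  rw [Finset.prod_ne_zero_iff] at hy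
  exact (h i j hi hij hj x).trans (hg3 (i, j) y (hy (i, j) (Finset.mem_product.2
    ⟨Finset.mem_range.2 (by omega), Finset.mem_range.2 (by omega)⟩)))

theorem IGood.rev {n : ℕ} {C : Chain F κ} {x₀ : ℕ → F} (h : IGood n C.v C.M x₀) :
    IGood n (C.rev n).v (C.rev n).M x₀ := by
  intro i j hi hij hj x
  rw [segx_rev C x hij hj.le, segx_rev C x₀ hij hj.le, Matrix.rank_transpose,
    Matrix.rank_transpose]
  exact h _ _ (by omega) (by omega) (by omega) x

theorem val_poly (n : ℕ) (C : Chain F κ) : IsPoly fun x => C.val n x := by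
  have h1 : ∀ x, C.val n x = ∑ i, C.u i * ∑ j, segx C.M C.v x 0 n i j * C.w j := fun x => rfl
  simp only [h1]
  exact RO.IsPoly.sum _ fun i _ => (RO.IsPoly.const (C.u i)).mul (RO.IsPoly.sum _ fun j _ =>
    (MIsPoly.segx C.M C.v 0 n i j).mul (RO.IsPoly.const (C.w j)))

/-- One step towards fewer modifications. -/
theorem read_step [Infinite F] {n N k W : ℕ} (C : Chain F κ)
    (hW : ∀ g ≤ 2 ^ k, (Fintype.card κ ^ g) ^ 2 ≤ W) (hn : 2 ≤ n)
    (hk : ∀ i, cnt C.v 0 n i ≤ k)
    (x₀ : ℕ → F) (hgood : IGood n C.v C.M x₀) (s : Finset ℕ)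
    (hs : s ⊆ Finset.range N) (hsc : TT k (Tb W + 1) + 2 ≤ s.card) (x₁ : ℕ → F)
    (hx₁ : ∀ j ∉ s, x₁ j = x₀ j) (hne : C.val n x₁ ≠ 0) :
    ∃ s' ⊆ Finset.range N, s'.card < s.card ∧ ∃ x', (∀ j ∉ s', x' j = x₀ j) ∧
      C.val n x' ≠ 0 := by
  classical
  set K := Tb W + 1 with hK
  set T := (s.erase (C.v 0)).erase (C.v (n - 1)) with hT
  have hTc : TT k K ≤ T.card := by
    have h1 : (s.erase (C.v 0)).card - 1 ≤ T.card := Finset.pred_card_le_card_erase
    have h2 : s.card - 1 ≤ (s.erase (C.v 0)).card := Finset.pred_card_le_card_erase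
    omega
  have hTs : T ⊆ s := (Finset.erase_subset _ _).trans (Finset.erase_subset _ _)
  have h0T : C.v 0 ∉ T := fun h => Finset.notMem_erase _ _ (Finset.mem_of_mem_erase h)
  have h1T : C.v (n - 1) ∉ T := Finset.notMem_erase _ _
  obtain ⟨e, heT, he, g, hg, hp⟩ := exists_pcs C.v k K 1 (n - 1) T (by omega) (fun x _ =>
    (Finset.card_le_card (Finset.filter_subset_filter _
      (Finset.Ico_subset_Ico (Nat.zero_le 1) (Nat.sub_le n 1)))).trans (hk x)) hTc
  obtain ⟨c, hc0, hcg, hcm, hcb, hc⟩ := exists_cuts hp (by omega)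
  set I : Finset ℕ := (Finset.range K).image e with hI
  have hIT : I ⊆ T := by
    intro j hj
    obtain ⟨m, hm, rfl⟩ := Finset.mem_image.1 hj
    exact heT m (Finset.mem_range.1 hm)
  have hIc : I.card = K := by
    rw [hI, Finset.card_image_of_injOn, Finset.card_range]
    intro a ha b hb h
    rw [Finset.coe_range, Set.mem_Iio] at ha hb
    exact he a ha b hb h
  set J := s \ I with hJ
  -- the environment
  obtain ⟨q, hq1, hq2, hq3⟩ := hgood.exists_poly
  have hJoin : Joined {x : ℕ → F | ∀ j ∈ {j | j ∉ s}, x j = x₀ j} := joined_agree x₀ _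
  have hmixself : mix J x₀ x₀ = x₀ := by
    funext j
    rw [mix]
    split_ifs <;> rfl
  obtain ⟨x, hx, hx'⟩ := hJoin.mul (hq1.mix J x₀) (val_poly n C) ⟨x₀, fun _ _ => rfl, by
      rw [hmixself]
      exact hq2⟩ ⟨x₁, fun j hj => hx₁ j hj, hne⟩
  set E := mix J x x₀ with hE
  have hEgood : IGood n C.v C.M E := hq3 _ (left_ne_zero_of_mul hx')
  have hxE : ∀ j, (∀ m < K, e m ≠ j) → x j = E j := by
    intro j hj
    rw [hE, mix]
    split_ifs with h
    · rfl
    · apply hx
      intro hjM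
      apply h
      rw [hJ, Finset.mem_sdiff]
      refine ⟨hjM, fun hjI => ?_⟩
      obtain ⟨m, hm, h'⟩ := Finset.mem_image.1 hjI
      exact hj m (Finset.mem_range.1 hm) h'
  have hxval := right_ne_zero_of_mul hx'
  -- reversal
  set ε : Fin g → Prop := fun b => ¬ Inc C.v e K (c b) (c (b + 1)) with hε
  set C' : Fin g → Chain F κ := fun b => if ε b then C.rev n else C with hC'
  set A : Fin g → ℕ := fun b => if ε b then n - c (b + 1) else c b with hA
  set B : Fin g → ℕ := fun b => if ε b then n - c b else c (b + 1) with hB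
  have hbnd : ∀ b : Fin g, 1 ≤ c b ∧ c b ≤ c (b + 1) ∧ c (b + 1) < n := by
    intro b
    have h1 := hcm b b.2
    have h2 := hcb b b.2.le
    have h3 := hcb (b + 1) b.2
    omega
  have hAB : ∀ b, 1 ≤ A b ∧ A b ≤ B b ∧ B b < n := by
    intro b
    have h1 := hbnd b
    simp only [hA, hB]
    split_ifs <;> omega
  have hinc : ∀ b, Inc (C' b).v e K (A b) (B b) := by
    intro b
    by_cases h : ε b
    · have h1 : C' b = C.rev n := if_pos h
      have h2 : A b = n - c (b + 1) := if_pos h
      have h3 : B b = n - c b := if_pos h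
      rw [h1, h2, h3]
      exact Dec.rev (hbnd b).2.2.le ((hc b b.2).resolve_left h)
    · have h1 : C' b = C := if_neg h
      have h2 : A b = c b := if_neg h
      have h3 : B b = c (b + 1) := if_neg h
      rw [h1, h2, h3]
      exact not_not.1 h
  have hgood' : ∀ b, IGood n (C' b).v (C' b).M E := by
    intro b
    by_cases h : ε b
    · rw [show C' b = C.rev n from if_pos h]
      exact hEgood.rev
    · rw [show C' b = C from if_neg h]
      exact hEgood
  obtain ⟨lam, hlam⟩ := exists_lam g (C.u ᵥ* segx C.M C.v E 0 1) (segx C.M C.v E (n - 1) n *ᵥ C.w)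
  have hval : ∀ z : ℕ → F, (∀ j, (∀ m < K, e m ≠ j) → z j = E j) → C.val n z =
      fv (fun L => lam fun b => if ε b then (L b).swap else L b)
        (fun b => segx (C' b).M (C' b).v z (bdr (C' b).v e K (A b) (B b) 0)
          (bdr (C' b).v e K (A b) (B b) K)) := by
    intro z hz
    have h1 : segx C.M C.v z 0 1 = segx C.M C.v E 0 1 := segx_congr _ _ fun l _ hl => by
      obtain rfl : l = 0 := by omega
      exact hz _ fun m hm h => h0T (h ▸ heT m hm)
    have h2 : segx C.M C.v z (n - 1) n = segx C.M C.v E (n - 1) n :=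
      segx_congr _ _ fun l hl hl' => by
        obtain rfl : l = n - 1 := by omega
        exact hz _ fun m hm h => h1T (h ▸ heT m hm)
    have h3 : segx C.M C.v z 1 (n - 1) =
        (List.ofFn fun b : Fin g => segx C.M C.v z (c b) (c (b + 1))).prod := by
      rw [ofFn_prod (fun b => segx C.M C.v z (c b) (c (b + 1))) g]
      have h4 := (seg_group' (ev C.M fun l => z (C.v l)) c (Nat.zero_le g)
        fun b _ hb => hcm b hb).2
      rw [hc0, hcg] at h4
      exact h4.symm
    have h5 : C.val n z = (C.u ᵥ* segx C.M C.v E 0 1) ⬝ᵥ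
        ((List.ofFn fun b : Fin g => segx C.M C.v z (c b) (c (b + 1))).prod *ᵥ
          (segx C.M C.v E (n - 1) n *ᵥ C.w)) := by
      rw [← h1, ← h2, ← h3, ← Matrix.dotProduct_mulVec, Matrix.mulVec_mulVec, Matrix.mulVec_mulVec,
        segx_mul _ _ _ (by omega) (by omega), segx_mul _ _ _ (by omega) (by omega), Chain.val]
    rw [h5, hlam, ← fv_transpose]
    congr 1
    funext b
    by_cases h : ε b
    · have h6 : C' b = C.rev n := if_pos h
      have h7 : A b = n - c (b + 1) := if_pos h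
      have h8 : B b = n - c b := if_pos h
      have h9 := hbnd b
      rw [if_pos h, bdr_zero (Nat.succ_pos _), bdr_last, h6, h7, h8,
        segx_rev C z (by omega) (by omega), Matrix.transpose_transpose]
      congr 1 <;> omega
    · have h6 : C' b = C := if_neg h
      have h7 : A b = c b := if_neg h
      have h8 : B b = c (b + 1) := if_neg h
      rw [if_neg h, bdr_zero (Nat.succ_pos _), bdr_last, h6, h7, h8]
  rw [hval x hxE] at hxval
  obtain ⟨S, hS, hSc, x', hx'1, hx'2⟩ := step_inc (N := K) _ C' (hW g hg) E e he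
    (fun b => bdr (C' b).v e K (A b) (B b))
    (fun b m _ => bdr_mono (hAB b).2.1 m)
    (fun b m hm l hl hl' m' hm' hmm => bdr_read (hAB b).2.1 (hinc b) hm hl hl' hm' hmm)
    (by
      intro b a' c' ha' hac' hc' z
      apply hgood' b
      · exact (hAB b).1.trans (le_bdr (hAB b).2.1 a')
      · exact (seg_group' (ev C.M fun l => z (C.v l)) (bdr (C' b).v e K (A b) (B b)) hac'
          fun m _ _ => bdr_mono (hAB b).2.1 m).1
      · exact (bdr_le (hAB b).2.1 c').trans_lt (hAB b).2.2)
    x hxE hxval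
  rw [← hval x' fun j hj => hx'1 j fun m hm => hj m (Finset.mem_range.1 (hS hm))] at hx'2
  refine ⟨J ∪ S.image e, ?_, ?_, x', ?_, hx'2⟩
  · intro j hj
    rcases Finset.mem_union.1 hj with h | h
    · exact hs (Finset.mem_sdiff.1 h).1
    · obtain ⟨m, hm, rfl⟩ := Finset.mem_image.1 h
      exact hs (hTs (heT m (Finset.mem_range.1 (hS hm))))
  · have h1 := Finset.card_union_le J (S.image e)
    have h2 : (S.image e).card ≤ S.card := Finset.card_image_le
    have h3 : J.card = s.card - K := by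
      rw [hJ, Finset.card_sdiff_of_subset (hIT.trans hTs), hIc]
    have h4 : K ≤ s.card := by
      rw [← hIc]
      exact Finset.card_le_card (hIT.trans hTs)
    omega
  · intro j hj
    rw [Finset.mem_union, not_or] at hj
    rw [hx'1 j fun m hm h => hj.2 (Finset.mem_image.2 ⟨m, hm, h⟩), hE, mix, if_neg hj.1]

/-- The modification lemma. -/
theorem modif_read [Infinite F] {n N k W : ℕ} (C : Chain F κ)
    (hW : ∀ g ≤ 2 ^ k, (Fintype.card κ ^ g) ^ 2 ≤ W)
    (hv : ∀ l < n, C.v l < N) (hk : ∀ i, cnt C.v 0 n i ≤ k)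
    (x₀ : ℕ → F) (hgood : IGood n C.v C.M x₀) (hne : ∃ x, C.val n x ≠ 0) :
    ∃ s ⊆ Finset.range N, s.card ≤ TT k (Tb W + 1) + 2 ∧ ∃ x, (∀ i ∉ s, x i = x₀ i) ∧
      C.val n x ≠ 0 := by
  classical
  obtain ⟨x, hx⟩ := hne
  set s₀ : Finset ℕ := (Finset.range n).image C.v with hs₀
  have hs₀N : s₀ ⊆ Finset.range N := by
    intro j hj
    obtain ⟨l, hl, rfl⟩ := Finset.mem_image.1 hj
    exact Finset.mem_range.2 (hv l (Finset.mem_range.1 hl))
  have hx₀' : ∀ i ∉ s₀, (if i ∈ s₀ then x i else x₀ i) = x₀ i := fun i hi => if_neg hi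
  have hxv : C.val n (fun i => if i ∈ s₀ then x i else x₀ i) ≠ 0 := by
    have h1 : segx C.M C.v (fun i => if i ∈ s₀ then x i else x₀ i) 0 n = segx C.M C.v x 0 n :=
      segx_congr _ _ fun l _ hl => if_pos (Finset.mem_image.2 ⟨l, Finset.mem_range.2 hl, rfl⟩)
    rw [Chain.val, h1]
    exact hx
  rcases Nat.lt_or_ge n 2 with hn | hn
  · refine ⟨s₀, hs₀N, ?_, _, hx₀', hxv⟩
    have h1 : s₀.card ≤ (Finset.range n).card := Finset.card_image_le
    rw [Finset.card_range] at h1
    omega
  have key : ∀ (m : ℕ) (s : Finset ℕ) (y : ℕ → F), s.card ≤ m → s ⊆ Finset.range N →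
      (∀ l ∉ s, y l = x₀ l) → C.val n y ≠ 0 →
      ∃ s ⊆ Finset.range N, s.card ≤ TT k (Tb W + 1) + 2 ∧
        ∃ x, (∀ i ∉ s, x i = x₀ i) ∧ C.val n x ≠ 0 := by
    intro m
    induction m with
    | zero =>
      intro s y hm hs hy hne
      exact ⟨s, hs, by omega, y, hy, hne⟩
    | succ m ih =>
      intro s y hm hs hy hne
      by_cases hc : s.card ≤ TT k (Tb W + 1) + 2
      · exact ⟨s, hs, hc, y, hy, hne⟩
      · obtain ⟨s', hs', hs'c, y', hy', hne'⟩ := read_step C hW hn hk x₀ hgood s hs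
          (by omega) y hy hne
        exact ih s' y' (by omega) hs' hy' hne'
  exact key s₀.card s₀ _ le_rfl hs₀N hx₀' hxv

end

end Pool.Agent.Helper4.RK
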