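import Mathlib
import Pool.Agent.Helper4.RK.Read

/-!
# Hitting programs reading every variable at most `k` times
-/

namespace Pool.Agent.Helper4.RK

set_option linter.unusedSectionVars false
set_option linter.unusedDecidableInType false

open Matrix Pool.Agent.Helper4.RO Pool.Agent.Helper91.Clus

/-! ### Read-`k` sequences -/

/-- The first `n` positions read variables below `N`, each at most `k` times. -/
structure IsRd (N k n : ℕ) (v : ℕ → ℕ) : Prop where
  lt : ∀ l < n, v l < N
  le : ∀ i, cnt v 0 n i ≤ k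

theorem IsRd.shift {N k n : ℕ} {v : ℕ → ℕ} (hv : IsRd N k n v) {i j : ℕ} (hj : j ≤ n) :
    IsRd N k (j - i) fun l => v (i + l) where
  lt l hl := hv.lt _ (by omega)
  le x := by
    refine le_trans ?_ (hv.le x)
    refine Finset.card_le_card_of_injOn (fun l => i + l) ?_ fun _ _ _ _ h => Nat.add_left_cancel h
    intro l hl
    rw [Finset.mem_coe, Finset.mem_filter, Finset.mem_Ico] at hl ⊢
    refine ⟨?_, hl.2⟩
    change 0 ≤ i + l ∧ i + l < n
    omega

section

variable {F : Type*} [Field F] {κ : Type*} [Fintype κ] [DecidableEq κ]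

/-- All nonzero `r × r` determinants are nonzero somewhere on `S`. -/
def RHits (N k : ℕ) (κ : Type*) [Fintype κ] [DecidableEq κ] (S : Set (ℕ → F)) (r : ℕ) : Prop :=
  ∀ (n : ℕ) (v : ℕ → ℕ) (M : ℕ → Matrix κ κ (Polynomial F)) (E : Matrix (Fin r) κ F)
    (E' : Matrix κ (Fin r) F), IsRd N k n v → (∃ x, (E * segx M v x 0 n * E').det ≠ 0) →
      ∃ x ∈ S, (E * segx M v x 0 n * E').det ≠ 0

/-- Points of maximal rank on all given intervals. -/
theorem exists_max_point' [Infinite F] {N k' : ℕ} {S : ℕ → Set (ℕ → F)} {k r : ℕ}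
    (hrec : ∀ r', r < r' → RHits N k' κ (S k) r') {n : ℕ} {v : ℕ → ℕ} (hv : IsRd N k' n v)
    (M : ℕ → Matrix κ κ (Polynomial F)) {i j : ℕ} (hj : j ≤ n)
    (hbig : ∃ x, r < (segx M v x i j).rank) :
    ∃ g : (ℕ → F) → F, RO.IsPoly g ∧ (∃ x ∈ S k, g x ≠ 0) ∧
      ∀ x₀, g x₀ ≠ 0 → ∀ x, (segx M v x i j).rank ≤ (segx M v x₀ i j).rank := by
  obtain ⟨y, hy⟩ := exists_max (fun x : ℕ → F => (segx M v x i j).rank) (Fintype.card κ)
    fun x => Matrix.rank_le_card_width _
  obtain ⟨x₁, hx₁⟩ := hbig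
  obtain ⟨P, Q, hPQ⟩ := exists_mul_eq_one (segx M v y i j) le_rfl
  refine ⟨fun x => (P * segx M v x i j * Q).det,
    (((MIsPoly.const P).mul (MIsPoly.segx M v i j)).mul (MIsPoly.const Q)).det, ?_, ?_⟩
  · obtain ⟨x, hx, h⟩ := hrec _ (hx₁.trans_le (hy x₁)) (j - i) (fun l => v (i + l))
      (fun l => M (i + l)) P Q (hv.shift hj) ⟨y, by
        rw [← segx_shift, hPQ, Matrix.det_one]
        exact one_ne_zero⟩
    rw [← segx_shift] at h
    exact ⟨x, hx, h⟩
  · intro x₀ hx₀ x
    exact (hy x).trans (le_rank_of_det_ne_zero _ _ _ hx₀)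

/-- The number of modifications for the width `w`. -/
def trn (k w : ℕ) : ℕ := TT k (Tb (((w + 1) ^ 2 ^ k) ^ 2) + 1) + 2

theorem pow_le_trn (w k g : ℕ) (hg : g ≤ 2 ^ k) : (w ^ g) ^ 2 ≤ ((w + 1) ^ 2 ^ k) ^ 2 :=
  Nat.pow_le_pow_left ((Nat.pow_le_pow_left (Nat.le_succ w) g).trans
    (Nat.pow_le_pow_right (Nat.succ_pos w) hg)) 2

theorem rhits_step [Infinite F] {N k' : ℕ} {S : ℕ → Set (ℕ → F)} (hS : IsLevels N S) {k r : ℕ}
    (hrec : ∀ r', r < r' → RHits N k' κ (S k) r') :
    RHits N k' κ (S (k + trn k' (Fintype.card κ ^ r))) r := by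
  classical
  intro n
  induction n using Nat.strong_induction_on with
  | _ n ih =>
  intro v M E E' hv hne
  obtain ⟨x, hx⟩ := hne
  by_cases hA : ∃ i j, 1 ≤ i ∧ i ≤ j ∧ j < n ∧ ∀ x, (segx M v x i j).rank ≤ r
  · obtain ⟨i, j, hi, hij, hj, hr⟩ := hA
    have h0 : ∀ z : ℕ → F, segx M v z 0 n = segx M v z 0 i * segx M v z i j * segx M v z j n := by
      intro z
      rw [segx_mul _ _ _ (Nat.zero_le i) hij, segx_mul _ _ _ (Nat.zero_le j) hj.le]
    have hrk : r ≤ (segx M v x i j).rank := by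
      have h1 := le_rank_of_det_ne_zero _ _ _ hx
      rw [h0] at h1
      exact h1.trans (rank_mul_mul_le _ _ _)
    obtain ⟨P, Q, hPQ⟩ := exists_mul_eq_one _ hrk
    have hex : ∀ z : ℕ → F, (E * segx M v z 0 n * E').det * (P * segx M v z i j * Q).det =
        (E * segx M v z 0 j * Q).det * (P * segx M v z i n * E').det := by
      intro z
      have h1 := det_exchange (segx M v z i j) (hr z) (E * segx M v z 0 i) P
        (segx M v z j n * E') Q
      rw [h0, ← segx_mul M v z (Nat.zero_le i) hij, ← segx_mul M v z hij hj.le]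
      simp only [Matrix.mul_assoc] at h1 ⊢
      exact h1
    have h2 : (E * segx M v x 0 j * Q).det * (P * segx M v x i n * E').det ≠ 0 := by
      rw [← hex, hPQ, Matrix.det_one, mul_one]
      exact hx
    obtain ⟨x₁, hx₁, h₁⟩ := ih j hj v M E Q (by
      have := hv.shift (i := 0) hj.le
      simpa using this) ⟨x, left_ne_zero_of_mul h2⟩
    obtain ⟨x₂, hx₂, h₂⟩ := ih (n - i) (by omega) (fun l => v (i + l)) (fun l => M (i + l)) P E'
      (hv.shift le_rfl) ⟨x, by
        rw [← segx_shift]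
        exact right_ne_zero_of_mul h2⟩
    rw [← segx_shift] at h₂
    obtain ⟨x₃, hx₃, h₃⟩ := (hS.joined (k + trn k' (Fintype.card κ ^ r))).mul
      (((MIsPoly.const E).mul (MIsPoly.segx M v 0 j)).mul (MIsPoly.const Q)).det
      (((MIsPoly.const P).mul (MIsPoly.segx M v i n)).mul (MIsPoly.const E')).det
      ⟨x₁, hx₁, h₁⟩ ⟨x₂, hx₂, h₂⟩
    rw [← hex] at h₃
    exact ⟨x₃, hx₃, left_ne_zero_of_mul h₃⟩
  · push Not at hA
    -- a point with maximal ranks
    have hg : ∀ p ∈ (Finset.range n ×ˢ Finset.range n).filter fun p => 1 ≤ p.1 ∧ p.1 ≤ p.2,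
        ∃ g : (ℕ → F) → F, RO.IsPoly g ∧ (∃ x ∈ S k, g x ≠ 0) ∧
          ∀ x₀, g x₀ ≠ 0 → ∀ x, (segx M v x p.1 p.2).rank ≤ (segx M v x₀ p.1 p.2).rank := by
      intro p hp
      rw [Finset.mem_filter, Finset.mem_product, Finset.mem_range, Finset.mem_range] at hp
      exact exists_max_point' hrec hv M hp.1.2.le (hA p.1 p.2 hp.2.1 hp.2.2 hp.1.2)
    choose! g hg1 hg2 hg3 using hg
    obtain ⟨x₀, hx₀, h₀⟩ := (hS.joined k).prod (hS.nonempty k) _ g hg1 hg2
    have hmax : ∀ i j, 1 ≤ i → i ≤ j → j < n → ∀ x, (segx M v x i j).rank ≤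
        (segx M v x₀ i j).rank := by
      intro i j hi hij hj y
      have hp : ((i, j) : ℕ × ℕ) ∈ (Finset.range n ×ˢ Finset.range n).filter
          fun p => 1 ≤ p.1 ∧ p.1 ≤ p.2 := by
        rw [Finset.mem_filter, Finset.mem_product, Finset.mem_range, Finset.mem_range]
        exact ⟨⟨lt_of_le_of_lt hij hj, hj⟩, hi, hij⟩
      exact hg3 _ hp x₀ (h₀ _ hp) y
    -- the tensor power
    set D : Chain F (Fin r → κ) := ⟨v, fun l => tp r (M l), tp r E (fun a => a),
      fun J => ∑ σ : Equiv.Perm (Fin r), ((Equiv.Perm.sign σ : ℤ) : F) * tp r E' J σ⟩ with hD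
    have hval : ∀ z : ℕ → F, D.val n z = (E * segx M v z 0 n * E').det := by
      intro z
      rw [Chain.val, segx, ev_tp, ← det_eq_tp]
      rfl
    obtain ⟨s, hs, hsc, z, hz, hz'⟩ := modif_read (N := N) (k := k') D (by
        rw [Fintype.card_fun, Fintype.card_fin]
        exact pow_le_trn _ _) hv.lt hv.le x₀ (by
        intro i j hi hij hj y
        rw [segx, segx, ev_tp, ev_tp]
        apply tp_rank_le
        exact hmax i j hi hij hj y) ⟨x, by
        rw [hval]
        exact hx⟩
    rw [hval] at hz'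
    exact ⟨z, hS.modif k _ x₀ hx₀ s hs hsc z hz, hz'⟩

/-- The levels after `d` steps. -/
def KR (k W : ℕ) : ℕ → ℕ
  | 0 => 0
  | d + 1 => KR k W d + trn k (W ^ (W - d))

theorem KR_mono (k W : ℕ) {d d' : ℕ} (h : d ≤ d') : KR k W d ≤ KR k W d' := by
  induction d', h using Nat.le_induction with
  | base => exact le_rfl
  | succ b _ ih => exact ih.trans (Nat.le_add_right _ _)

/-- The level at which programs of width `W` are hit. -/
def levR (k W : ℕ) : ℕ := ∑ r ∈ Finset.range W, trn k (W ^ (r + 1))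

theorem KR_eq (k W : ℕ) : ∀ d ≤ W, KR k W d = ∑ r ∈ Finset.range d, trn k (W ^ (W - r)) := by
  intro d
  induction d with
  | zero => intro _; rfl
  | succ d ih => intro hd; rw [KR, ih (by omega), Finset.sum_range_succ]

theorem KR_self (k W : ℕ) : KR k W W = levR k W := by
  rw [KR_eq k W W le_rfl, levR, ← Finset.sum_range_reflect]
  refine Finset.sum_congr rfl fun r hr => ?_
  rw [Finset.mem_range] at hr
  congr 2
  omega

theorem rhits_KR [Infinite F] {N k : ℕ} {S : ℕ → Set (ℕ → F)} (hS : IsLevels N S) :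
    ∀ d ≤ Fintype.card κ, ∀ r, Fintype.card κ < r + d →
      RHits N k κ (S (KR k (Fintype.card κ) d)) r := by
  intro d
  induction d with
  | zero =>
    rintro - r hr n v M E E' hv ⟨x, hx⟩
    exfalso
    have h1 := le_rank_of_det_ne_zero _ _ _ hx
    have h2 := Matrix.rank_le_card_width (segx M v x 0 n)
    omega
  | succ d ih =>
    intro hd r hr
    by_cases h : Fintype.card κ < r + d
    · intro n v M E E' hv hne
      obtain ⟨x, hx, h'⟩ := ih (by omega) r h n v M E E' hv hne
      exact ⟨x, hS.mono (KR_mono _ _ (Nat.le_succ d)) hx, h'⟩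
    · have hrd : Fintype.card κ - d = r := by omega
      rw [KR, hrd]
      exact rhits_step hS fun r' hr' => ih (by omega) r' (by omega)

/-- All determinants are hit at level `levR k (card κ)`. -/
theorem rhits_lev [Infinite F] {N k : ℕ} {S : ℕ → Set (ℕ → F)} (hS : IsLevels N S) (r : ℕ) :
    RHits N k κ (S (levR k (Fintype.card κ))) r := by
  rcases Nat.eq_zero_or_pos r with rfl | hr
  · intro n v M E E' hv hne
    obtain ⟨x, hx⟩ := hS.nonempty (levR k (Fintype.card κ))
    refine ⟨x, hx, ?_⟩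
    rw [Matrix.det_isEmpty]
    exact one_ne_zero
  · rw [← KR_self]
    exact rhits_KR hS _ le_rfl r (by omega)

/-- Programs are hit. -/
theorem chain_hit [Infinite F] {N k n : ℕ} {S : ℕ → Set (ℕ → F)} (hS : IsLevels N S)
    (C : Chain F κ) (hv : IsRd N k n C.v) (hne : ∃ x, C.val n x ≠ 0) :
    ∃ x ∈ S (levR k (Fintype.card κ)), C.val n x ≠ 0 := by
  have hval : ∀ x, (Matrix.of (fun (_ : Fin 1) j => C.u j) * segx C.M C.v x 0 n *
      Matrix.of (fun j (_ : Fin 1) => C.w j)).det = C.val n x := by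
    intro x
    rw [Matrix.det_fin_one, Matrix.mul_assoc, Matrix.mul_apply]
    rfl
  obtain ⟨x, hx⟩ := hne
  obtain ⟨y, hy, hy'⟩ := rhits_lev (κ := κ) (k := k) hS 1 n C.v C.M
    (Matrix.of (fun (_ : Fin 1) j => C.u j)) (Matrix.of (fun j (_ : Fin 1) => C.w j)) hv ⟨x, by
      rw [hval]
      exact hx⟩
  rw [hval] at hy'
  exact ⟨y, hy, hy'⟩

end

/-! ### Programs as lists -/

theorem exists_seq {n : ℕ} {ι : Type} [Fintype ι] [DecidableEq ι]
    (L : List (Fin n × Matrix ι ι (Polynomial ℂ))) :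
    ∃ (v : ℕ → ℕ) (M : ℕ → Matrix ι ι (Polynomial ℂ)), (∀ l < L.length, v l < n) ∧
      (∀ i : Fin n, cnt v 0 L.length i ≤ (L.map Prod.fst).count i) ∧
      ∀ x : ℕ → ℂ, segx M v x 0 L.length =
        (MvPolynomial.eval (fun i : Fin n => x i)).mapMatrix (lprod L) := by
  classical
  induction L using List.reverseRecOn with
  | nil =>
    refine ⟨fun _ => 0, fun _ => 1, fun l hl => absurd hl (Nat.not_lt_zero l), ?_, ?_⟩
    · intro i
      simp [cnt]
    · intro x
      rw [segx, List.length_nil, seg_self, lprod, List.map_nil, List.prod_nil, map_one]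
  | append_singleton L p ih =>
    obtain ⟨v, M, h1, h2, h3⟩ := ih
    refine ⟨fun l => if l < L.length then v l else p.1,
      fun l => if l < L.length then M l else p.2, ?_, ?_, ?_⟩
    · intro l hl
      dsimp only
      split_ifs with h
      · exact h1 l h
      · exact p.1.2
    · intro i
      have h4 := h2 i
      rw [List.map_append, List.count_append, List.length_append, List.length_singleton, cnt,
        ← Finset.range_eq_Ico, Finset.range_add_one, Finset.filter_insert]
      have h5 : ((Finset.range L.length).filter fun l =>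
          (if l < L.length then v l else (p.1 : ℕ)) = (i : ℕ)).card ≤ (L.map Prod.fst).count i := by
        refine le_trans (le_of_eq ?_) h4
        rw [cnt, ← Finset.range_eq_Ico]
        congr 1
        apply Finset.filter_congr
        intro l hl
        rw [if_pos (Finset.mem_range.1 hl)]
      rw [if_neg (lt_irrefl _)]
      by_cases h : (p.1 : ℕ) = (i : ℕ)
      · rw [if_pos h]
        have h6 : p.1 = i := Fin.ext h
        refine (Finset.card_insert_le _ _).trans ?_
        rw [List.map_singleton, h6, List.count_singleton_self]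
        rw [h6] at h5
        exact Nat.add_le_add_right h5 1
      · rw [if_neg h]
        exact h5.trans (Nat.le_add_right _ _)
    · intro x
      rw [List.length_append, List.length_singleton, segx, seg_succ _ (Nat.zero_le _)]
      have h6 : seg (ev (fun l => if l < L.length then M l else p.2)
          fun l => x (if l < L.length then v l else (p.1 : ℕ))) 0 L.length =
          segx M v x 0 L.length := by
        apply seg_congr
        intro l _ hl
        rw [ev, ev, if_pos hl, if_pos hl]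
      have h7 : lprod (L ++ [p]) = lprod L * (p.2.map fun q =>
          Polynomial.aeval (MvPolynomial.X p.1 : MvPolynomial (Fin n) ℂ) q) := by
        rw [lprod, lprod, List.map_append, List.prod_append, List.map_singleton,
          List.prod_singleton]
      rw [h6, h3, h7, map_mul]
      congr 1
      rw [ev, if_neg (lt_irrefl _), if_neg (lt_irrefl _)]
      ext a b
      rw [RingHom.mapMatrix_apply, Matrix.map_apply, Matrix.map_apply, Matrix.map_apply]
      have h := Polynomial.hom_eval₂ (p.2 a b) (algebraMap ℂ (MvPolynomial (Fin n) ℂ))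
        (MvPolynomial.eval (fun i : Fin n => x i)) (MvPolynomial.X p.1)
      rw [Polynomial.aeval_def, h, MvPolynomial.eval_X]
      have h2 : (MvPolynomial.eval (fun i : Fin n => x i)).comp
          (algebraMap ℂ (MvPolynomial (Fin n) ℂ)) = RingHom.id ℂ := by
        ext a
        simp [MvPolynomial.algebraMap_eq]
      rw [h2, Polynomial.eval₂_id]

theorem IsRK.exists_chain {n w k : ℕ} {f : MvPolynomial (Fin n) ℂ} (hf : IsRK w k f) :
    ∃ (m : ℕ) (C : Chain ℂ (Fin w)), IsRd n k m C.v ∧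
      ∀ x : ℕ → ℂ, C.val m x = MvPolynomial.eval (fun i : Fin n => x i) f := by
  classical
  obtain ⟨L, u, w', hL, rfl⟩ := hf
  obtain ⟨v, M, h1, h2, h3⟩ := exists_seq L
  refine ⟨L.length, ⟨v, M, u, w'⟩, ⟨h1, fun i => ?_⟩, fun x => ?_⟩
  · by_cases hi : i < n
    · exact (h2 ⟨i, hi⟩).trans (hL ⟨i, hi⟩)
    · have h4 : cnt v 0 L.length i = 0 := by
        rw [cnt, Finset.card_eq_zero, Finset.filter_eq_empty_iff]
        intro l hl h5
        have := h1 l (Finset.mem_Ico.1 hl).2
        omega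
      change cnt v 0 L.length i ≤ k
      omega
  · rw [Chain.val, h3]
    simp only [dotProduct, Matrix.mulVec, map_sum, map_mul, MvPolynomial.eval_C, Finset.mul_sum]
    refine Finset.sum_congr rfl fun i _ => Finset.sum_congr rfl fun j _ => ?_
    rw [RingHom.mapMatrix_apply, Matrix.map_apply]
    ring

/-- Read-`k` programs are hit at level `levR k w`. -/
theorem rk_hit {n w k : ℕ} {f : MvPolynomial (Fin n) ℂ} (hf : IsRK w k f) (h0 : f ≠ 0) :
    ∃ x ∈ lvl n (levR k w + 1), MvPolynomial.eval (fun i : Fin n => x i) f ≠ 0 := by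
  obtain ⟨m, C, hC1, hC2⟩ := hf.exists_chain
  obtain ⟨a, ha⟩ := Pool.Agent.Helper28.D4.exists_eval_ne_zero _ h0
  obtain ⟨x, hx, hx'⟩ := chain_hit (isLevels_lvl n) C hC1
    ⟨fun i => if h : i < n then a ⟨i, h⟩ else 0, by
      rw [hC2]
      simpa using ha⟩
  rw [hC2] at hx'
  rw [Fintype.card_fin] at hx
  exact ⟨x, hx, hx'⟩

end Pool.Agent.Helper4.RK
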