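import Mathlib
import Pool.Agent.Helper62.VT.Roabp
import Pool.Agent.Helper62.VT.Gsparse
import Pool.Agent.Helper19.RK.Closure
import Pool.Agent.Helper75.RK.Params
import Pool.Agent.Helper4.RK.Hit

/-!
# Products of polynomials in few branching programs reading every variable at most `k` times
-/

namespace Pool.Agent.Helper4.RK

open MvPolynomial
open Pool.Agent.Helper4.RO (lvl)
open Pool.Agent.Helper28.D4 (G)
open Pool.Agent.Helper62.VT (split W spec pts exists_point exists_factorization
  coeff_split_aeval faithful_of_tuple algInd_of_minor)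

variable {n : ℕ}

/-- The level at which the minors of the Jacobian matrix of at most `M` programs are hit. -/
def Kmin (w k M : ℕ) : ℕ := levR (M.factorial * (M * k)) (M.factorial * (2 * w) ^ M) + 1

theorem minor_hit {t M w k : ℕ} (hw : 1 ≤ w) (ht : t ≤ M) (c : Fin t → MvPolynomial (Fin n) ℂ)
    (hc : ∀ i, IsRK w k (c i)) (e : Fin t → Fin n)
    (h0 : (Matrix.of fun i j => MvPolynomial.pderiv (e j) (c i)).det ≠ 0) :
    ∃ x ∈ lvl n (Kmin w k M), eval (fun i : Fin n => x i)
      (Matrix.of fun i j => MvPolynomial.pderiv (e j) (c i)).det ≠ 0 := by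
  refine rk_hit (IsRK.mono ?_ ?_ (IsRK.det _ fun i j => (hc i).pderiv (e j))) h0
  · exact Nat.mul_le_mul (Nat.factorial_le ht) (Nat.pow_le_pow_right (by omega) ht)
  · exact Nat.mul_le_mul (Nat.factorial_le ht) (Nat.mul_le_mul_right k ht)

/-- **Faithfulness** for few programs. -/
theorem rk_faithful (n M w k : ℕ) (hw : 1 ≤ w) (c : Fin M → MvPolynomial (Fin n) ℂ)
    (hc : ∀ j, IsRK w k (c j)) (H : MvPolynomial (Fin M) ℂ) (h0 : aeval c H ≠ 0) :
    spec n (Kmin w k M + M) (fun _ => 0) (aeval c H) ≠ 0 := by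
  classical
  obtain ⟨t, ht, s, hs, B, g, hB, hBg⟩ := Pool.Agent.Helper28.D4.norm_trick (r := M) c (by
    intro s hs
    have : Function.Injective s := fun i j hij => hs.injective (by simp [hij])
    have := Fintype.card_le_of_injective s this
    simp at this) H h0
  intro h0'
  have h1 := congrArg (spec n (Kmin w k M + M) (fun _ => 0)) hBg
  rw [map_mul, h0', zero_mul, comp_aeval_apply] at h1
  obtain ⟨e, hdet⟩ := Pool.Agent.Helper93.D4.jac_of_algInd (fun i => c (s i)) hs
  have he : Function.Injective e := by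
    intro j k hjk
    by_contra hne
    apply hdet
    apply Matrix.det_zero_of_column_eq hne
    intro i
    simp [hjk]
  obtain ⟨x, ⟨z, w', hzw⟩, hx'⟩ := minor_hit hw ht (fun i => c (s i)) (fun i => hc (s i)) e hdet
  have h2 : AlgebraicIndependent ℂ
      (fun i => spec n (Kmin w k M + M) (fun _ => 0) (c (s i))) := by
    refine algInd_of_minor ht (fun i => c (s i)) e he z w' ?_
    have h3 : (fun l => G n (Kmin w k M) z w' l) = fun l : Fin n => x l :=
      funext fun l => (hzw l).symm
    rw [h3]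
    exact hx'
  rw [algebraicIndependent_iff] at h2
  exact hB (h2 B h1)

/-! ### The hitting set -/

/-- The factors. -/
def RkFactors (n q w k : ℕ) : Set (MvPolynomial (Fin n) ℂ) :=
  {f | ∃ (A : Fin q → MvPolynomial (Fin n) ℂ) (F : MvPolynomial (Fin q) ℂ),
    (∀ j, IsRK w k (A j)) ∧ f = aeval A F}

/-- The number of parameters of `r + 1` factors. -/
def MF (r q w k : ℕ) : ℕ := (r + 1) * (q * ((r * k + 1) * w ^ 2))

/-- The number of blocks of the generator. -/
def KF (r q w k : ℕ) : ℕ := r + (Kmin w k (MF r q w k) + MF r q w k)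

theorem factors_hit {m r q w k d : ℕ} (hw : 1 ≤ w) (P : Fin m → MvPolynomial (Fin n) ℂ)
    (hP : ∀ i, P i ∈ Submonoid.closure (RkFactors n q w k))
    (hr : ∀ s : Fin (r + 1) → Fin m, ¬ AlgebraicIndependent ℂ fun i => P (s i))
    (g : MvPolynomial (Fin m) ℂ) (h0 : aeval P g ≠ 0) (hd : (aeval P g).totalDegree ≤ d) :
    ∃ a ∈ pts n (KF r q w k) (fun _ _ => 0) (d * n),
      eval (fun l => ((a l : ℤ) : ℂ)) (aeval P g) ≠ 0 := by
  classical
  obtain ⟨ε, hε, h⟩ := exists_point (M := Kmin w k (MF r q w k) + MF r q w k) (D := 0) P hr g h0 hd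
    {fun _ : Fin n => 0} (by
      rintro ε rfl l
      rw [Polynomial.natDegree_zero]) (b := d * n) (by
      rw [zero_add]) (by
      intro r' hr' t ht e he
      have hL : ∀ i, ∃ L : List (MvPolynomial (Fin n) ℂ), (∀ f ∈ L, f ∈ RkFactors n q w k) ∧
          P (t i) = L.prod := fun i => by
        obtain ⟨L, hL, h⟩ := Submonoid.exists_list_of_mem_closure (hP (t i))
        exact ⟨L, hL, h.symm⟩
      choose L hL1 hL2 using hL
      obtain ⟨B, hB1, hB2, f, mm, hf0, hfL, hfP, -⟩ :=
        exists_factorization (fun i => P (t i)) L hL2 ht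
      refine ⟨B, hB1, hB2, f, mm, hf0, hfP, ?_⟩
      have hfac : ∀ b, f b ∈ RkFactors n q w k := by
        intro b
        obtain ⟨i, hi⟩ := hfL b
        exact hL1 i _ hi
      choose A F hA hfA using hfac
      choose γ hγ1 hγ2 using fun b =>
        Pool.Agent.Helper75.RK.exists_params he hr' (A b) (hA b)
      refine ⟨fun b => Set.range (γ b), ?_, fun _ => 0, rfl, ?_⟩
      · intro b k
        rw [hfA b]
        exact coeff_split_aeval _ _ _ (hγ2 b) k
      · intro T hT
        exact faithful_of_tuple _ (IsRK.zero (w := w) (k := k)) γ hγ1 (t := r' + 1)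
          (Nat.mul_le_mul_right _ (Nat.succ_le_succ hr'))
          (fun c hc H hH => rk_faithful n (MF r q w k) w k hw c hc H hH) T hT)
  rw [Set.mem_singleton_iff] at hε
  subst hε
  have h1 : (fun _ : Fin n => (0 : Polynomial ℤ).eval) = fun (_ : Fin n) (_ : ℤ) => (0 : ℤ) := by
    funext l t
    exact Polynomial.eval_zero
  rw [h1] at h
  exact h

end Pool.Agent.Helper4.RK
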