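import Mathlib
import Pool.Agent.Helper19.RK.Closure

/-!
# Read-k formulas of bounded depth are read-k programs of bounded width
-/

namespace Pool.Agent.Helper4.RK

set_option linter.unusedSectionVars false

open MvPolynomial Matrix

variable {n : ℕ} {ι κ : Type} [Fintype ι] [DecidableEq ι] [Fintype κ] [DecidableEq κ]

/-- A constant matrix as a matrix of univariate polynomials can be absorbed. -/
theorem lay_mul_const (p : Fin n × Matrix ι ι (Polynomial ℂ)) (K : Matrix ι ι ℂ) :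
    lay (p.1, p.2 * K.map Polynomial.C) = lay p * K.map C := by
  ext1 a b
  simp only [lay, Matrix.map_apply, Matrix.mul_apply, map_sum, map_mul, Polynomial.aeval_C]
  rfl

/-- Matrices which are products of constant matrices and layers, reading the list `L`. -/
def GM (L : List (Fin n)) (A : Matrix ι ι (MvPolynomial (Fin n) ℂ)) : Prop :=
  ∃ (T : List (Fin n × Matrix ι ι (Polynomial ℂ))) (K : Matrix ι ι ℂ), T.map Prod.fst = L ∧
    A = K.map C * lprod T

theorem map_C_mul (K K' : Matrix ι ι ℂ) : ((K * K').map C : Matrix ι ι (MvPolynomial (Fin n) ℂ)) =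
    K.map C * K'.map C := by
  rw [Matrix.map_mul]

theorem map_C_mul' {l m o : Type} [Fintype m] (K : Matrix l m ℂ) (K' : Matrix m o ℂ) :
    ((K * K').map C : Matrix l o (MvPolynomial (Fin n) ℂ)) = K.map C * K'.map C :=
  Matrix.map_mul

theorem GM.const (K : Matrix ι ι ℂ) : GM [] (K.map C : Matrix ι ι (MvPolynomial (Fin n) ℂ)) :=
  ⟨[], K, rfl, by rw [lprod_nil, Matrix.mul_one]⟩

theorem GM.mul_const {L : List (Fin n)} {A : Matrix ι ι (MvPolynomial (Fin n) ℂ)} (h : GM L A)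
    (K' : Matrix ι ι ℂ) : GM L (A * K'.map C) := by
  obtain ⟨T, K, rfl, rfl⟩ := h
  rcases List.eq_nil_or_concat T with rfl | ⟨T', p, rfl⟩
  · exact ⟨[], K * K', rfl, by rw [lprod_nil, Matrix.mul_one, Matrix.mul_one, map_C_mul]⟩
  · refine ⟨T' ++ [(p.1, p.2 * K'.map Polynomial.C)], K, ?_, ?_⟩
    · simp
    · rw [List.concat_eq_append, lprod_append, lprod_append, lprod_cons, lprod_cons, lprod_nil,
        Matrix.mul_one, Matrix.mul_one, lay_mul_const]
      simp only [Matrix.mul_assoc]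

theorem GM.mul {L L' : List (Fin n)} {A B : Matrix ι ι (MvPolynomial (Fin n) ℂ)} (hA : GM L A)
    (hB : GM L' B) : GM (L ++ L') (A * B) := by
  obtain ⟨T', K', rfl, rfl⟩ := hB
  obtain ⟨T, K, rfl, h⟩ := hA.mul_const K'
  refine ⟨T ++ T', K, List.map_append, ?_⟩
  rw [← Matrix.mul_assoc, h, lprod_append, Matrix.mul_assoc]

/-- Polynomials computed by programs reading the list `L`. -/
def PF (ι : Type) [Fintype ι] [DecidableEq ι] (L : List (Fin n)) (f : MvPolynomial (Fin n) ℂ) :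
    Prop :=
  ∃ (A : Matrix ι ι (MvPolynomial (Fin n) ℂ)) (u v : ι → ℂ), GM L A ∧
    f = ∑ i, ∑ j, C (u i) * A i j * C (v j)

theorem PF.rki {L : List (Fin n)} {f : MvPolynomial (Fin n) ℂ} (h : PF ι L f) {k : ℕ}
    (hk : ∀ i, L.count i ≤ k) : RKi ι k f := by
  obtain ⟨A, u, v, ⟨T, K, rfl, rfl⟩, rfl⟩ := h
  refine ⟨T, fun i' => ∑ i, u i * K i i', v, hk, ?_⟩
  rw [Finset.sum_comm]
  conv_rhs => rw [Finset.sum_comm]
  refine Finset.sum_congr rfl fun j _ => ?_
  simp only [Matrix.mul_apply, Matrix.map_apply, map_sum, Finset.mul_sum, Finset.sum_mul, map_mul]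
  rw [Finset.sum_comm]
  refine Finset.sum_congr rfl fun i _ => Finset.sum_congr rfl fun i' _ => ?_
  ring

theorem GM.reindex (e : ι ≃ κ) {L : List (Fin n)} {A : Matrix ι ι (MvPolynomial (Fin n) ℂ)}
    (h : GM L A) : GM L (A.submatrix e.symm e.symm) := by
  obtain ⟨T, K, rfl, rfl⟩ := h
  refine ⟨T.map fun p => (p.1, p.2.submatrix e.symm e.symm), K.submatrix e.symm e.symm, ?_, ?_⟩
  · simp [Function.comp_def]
  · have key : lprod (T.map fun p => (p.1, p.2.submatrix e.symm e.symm)) =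
        (lprod T).submatrix e.symm e.symm := by
      induction T with
      | nil => simp [lprod_nil]
      | cons p T ih =>
        rw [List.map_cons, lprod_cons, lprod_cons, ih, ← Matrix.submatrix_mul_equiv _ _ _ e.symm]
        rfl
    rw [key, ← Matrix.submatrix_mul_equiv _ _ _ e.symm]
    rfl

theorem PF.reindex (e : ι ≃ κ) {L : List (Fin n)} {f : MvPolynomial (Fin n) ℂ} (h : PF ι L f) :
    PF κ L f := by
  obtain ⟨A, u, v, hA, rfl⟩ := h
  refine ⟨_, fun i => u (e.symm i), fun j => v (e.symm j), hA.reindex e, ?_⟩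
  rw [← e.sum_comp]
  refine Finset.sum_congr rfl fun i _ => ?_
  rw [← e.sum_comp]
  refine Finset.sum_congr rfl fun j _ => ?_
  simp

/-! ### Leaves -/

theorem PF.leaf (i : Fin n) (T : Polynomial ℂ) :
    PF (Fin 1) [i] (Polynomial.aeval (X i : MvPolynomial (Fin n) ℂ) T) := by
  refine ⟨lay (i, Matrix.of fun _ _ => T), fun _ => 1, fun _ => 1,
    ⟨[(i, Matrix.of fun _ _ => T)], 1, rfl, ?_⟩, ?_⟩
  · rw [lprod_cons, lprod_nil, Matrix.mul_one, Matrix.map_one _ C_0 C_1, Matrix.one_mul]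
  · simp [lay]

/-! ### Products -/

theorem PF.one [Nonempty ι] : PF ι [] (1 : MvPolynomial (Fin n) ℂ) := by
  obtain ⟨i₀⟩ := ‹Nonempty ι›
  refine ⟨_, Pi.single i₀ 1, Pi.single i₀ 1, GM.const 1, ?_⟩
  rw [Finset.sum_eq_single i₀, Finset.sum_eq_single i₀]
  · simp
  · intro j _ hj
    rw [Pi.single_eq_of_ne hj, C_0, mul_zero]
  · intro h
    exact absurd (Finset.mem_univ _) h
  · intro i _ hi
    refine Finset.sum_eq_zero fun j _ => ?_
    rw [Pi.single_eq_of_ne hi, C_0, zero_mul, zero_mul]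
  · intro h
    exact absurd (Finset.mem_univ _) h

theorem sum_eq_dot (A : Matrix ι ι (MvPolynomial (Fin n) ℂ)) (u v : ι → ℂ) :
    ∑ i, ∑ j, C (u i) * A i j * C (v j) = (fun i => C (u i)) ⬝ᵥ (A *ᵥ fun j => C (v j)) := by
  rw [dotProduct]
  refine Finset.sum_congr rfl fun i _ => ?_
  rw [Matrix.mulVec, dotProduct, Finset.mul_sum]
  exact Finset.sum_congr rfl fun j _ => mul_assoc _ _ _

theorem PF.mul {L L' : List (Fin n)} {f g : MvPolynomial (Fin n) ℂ} (hf : PF ι L f)
    (hg : PF ι L' g) : PF ι (L ++ L') (f * g) := by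
  obtain ⟨A, u, v, hA, rfl⟩ := hf
  obtain ⟨B, u', v', hB, rfl⟩ := hg
  refine ⟨A * (Matrix.vecMulVec v u').map C * B, u, v', (hA.mul_const _).mul hB, ?_⟩
  have hV : ∀ z : ι → MvPolynomial (Fin n) ℂ, (Matrix.vecMulVec v u').map C *ᵥ z =
      ((fun i => C (u' i)) ⬝ᵥ z) • fun j => C (v j) := by
    intro z
    funext i
    rw [Matrix.mulVec, dotProduct, Pi.smul_apply, smul_eq_mul, dotProduct, Finset.sum_mul]
    refine Finset.sum_congr rfl fun j _ => ?_
    rw [Matrix.map_apply, Matrix.vecMulVec_apply, C_mul]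
    ring
  rw [sum_eq_dot, sum_eq_dot, sum_eq_dot, ← Matrix.mulVec_mulVec, ← Matrix.mulVec_mulVec, hV,
    Matrix.mulVec_smul, dotProduct_smul, smul_eq_mul, mul_comm]

theorem PF.prod_fin [Nonempty ι] : ∀ {m : ℕ} {L : Fin m → List (Fin n)}
    {f : Fin m → MvPolynomial (Fin n) ℂ}, (∀ j, PF ι (L j) (f j)) →
    PF ι (List.ofFn L).flatten (∏ j, f j) := by
  intro m
  induction m with
  | zero =>
    intro L f _
    rw [List.ofFn_zero, List.flatten_nil, Finset.univ_eq_empty, Finset.prod_empty]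
    exact PF.one
  | succ m ih =>
    intro L f h
    rw [List.ofFn_succ, List.flatten_cons, Fin.prod_univ_succ]
    exact (h 0).mul (ih fun j => h j.succ)

/-! ### Sums -/

/-- The accumulator matrix. -/
noncomputable def acc (ι : Type) (f : MvPolynomial (Fin n) ℂ) :
    Matrix (Fin 2 ⊕ ι) (Fin 2 ⊕ ι) (MvPolynomial (Fin n) ℂ) :=
  Matrix.fromBlocks !![1, f; 0, 1] 0 0 0

theorem acc_mul (f g : MvPolynomial (Fin n) ℂ) : acc ι f * acc ι g = acc ι (f + g) := by
  rw [acc, acc, acc, Matrix.fromBlocks_multiply]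
  congr 1
  · rw [Matrix.mul_zero, add_zero]
    ext1 a b
    fin_cases a <;> fin_cases b <;> simp [add_comm]
  all_goals simp

theorem acc_zero : acc ι (0 : MvPolynomial (Fin n) ℂ) =
    (Matrix.fromBlocks 1 0 0 0 : Matrix (Fin 2 ⊕ ι) (Fin 2 ⊕ ι) ℂ).map C := by
  rw [acc, Matrix.fromBlocks_map]
  congr 1
  · ext1 a b
    fin_cases a <;> fin_cases b <;> simp
  all_goals
    ext1 a b
    simp

theorem PF.acc {L : List (Fin n)} {f : MvPolynomial (Fin n) ℂ} (h : PF ι L f) :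
    GM L (acc ι f) := by
  obtain ⟨A, u, v, ⟨T, K, rfl, rfl⟩, rfl⟩ := h
  set U : Matrix (Fin 2) ι ℂ := Matrix.of fun a i => if a = 0 then u i else 0 with hU
  set V : Matrix ι (Fin 2) ℂ := Matrix.of fun i a => if a = 1 then v i else 0 with hV
  have h1 : GM (T.map Prod.fst) (((Matrix.fromBlocks 1 (U * K) 0 0 :
      Matrix (Fin 2 ⊕ ι) (Fin 2 ⊕ ι) ℂ).map C) *
      lprod (T.map fun p => (p.1, Matrix.fromBlocks (1 : Matrix (Fin 2) (Fin 2) (Polynomial ℂ))
        0 0 p.2))) :=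
    ⟨_, _, by simp [Function.comp_def], rfl⟩
  have h2 := h1.mul_const (Matrix.fromBlocks 1 0 V 0)
  have h3 : RK.acc ι (∑ i, ∑ j, C (u i) * ((K.map C : Matrix ι ι (MvPolynomial (Fin n) ℂ)) *
      lprod T) i j * C (v j)) = (((Matrix.fromBlocks 1 (U * K) 0 0 :
      Matrix (Fin 2 ⊕ ι) (Fin 2 ⊕ ι) ℂ).map C) *
      lprod (T.map fun p => (p.1, Matrix.fromBlocks (1 : Matrix (Fin 2) (Fin 2) (Polynomial ℂ))
        0 0 p.2))) * (Matrix.fromBlocks 1 0 V 0 : Matrix (Fin 2 ⊕ ι) (Fin 2 ⊕ ι) ℂ).map C := by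
    rw [lprod_blocks_right, Matrix.fromBlocks_map, Matrix.fromBlocks_map,
      Matrix.fromBlocks_multiply, Matrix.fromBlocks_multiply, RK.acc]
    simp only [Matrix.map_zero, map_zero, Matrix.map_one, map_one, Matrix.mul_zero,
      Matrix.zero_mul, Matrix.mul_one, add_zero, zero_add]
    congr 1
    rw [map_C_mul']
    have h5 := Matrix.mul_assoc (U.map C : Matrix (Fin 2) ι (MvPolynomial (Fin n) ℂ))
      (K.map C : Matrix ι ι (MvPolynomial (Fin n) ℂ)) (lprod T)
    refine Eq.trans ?_ (congrArg (fun Z => (1 : Matrix (Fin 2) (Fin 2) (MvPolynomial (Fin n) ℂ)) +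
      Z * (V.map C : Matrix ι (Fin 2) (MvPolynomial (Fin n) ℂ))) h5.symm)
    generalize (K.map C : Matrix ι ι (MvPolynomial (Fin n) ℂ)) * lprod T = P
    ext1 a b
    rw [Matrix.add_apply, Matrix.mul_apply]
    simp only [Matrix.mul_apply, Matrix.map_apply, hU, hV, Matrix.of_apply]
    fin_cases a <;> fin_cases b
    · simp
    · simp only [Fin.mk_one, Fin.zero_eta, Matrix.cons_val, if_true, Finset.sum_mul]
      rw [Finset.sum_comm]
      simp
    · simp
    · simp
  rw [h3]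
  exact h2

theorem acc_fin : ∀ {m : ℕ} {L : Fin m → List (Fin n)}
    {f : Fin m → MvPolynomial (Fin n) ℂ}, (∀ j, PF ι (L j) (f j)) →
    GM (List.ofFn L).flatten (RK.acc ι (∑ j, f j)) := by
  intro m
  induction m with
  | zero =>
    intro L f _
    rw [List.ofFn_zero, List.flatten_nil, Finset.univ_eq_empty, Finset.sum_empty, acc_zero]
    exact GM.const _
  | succ m ih =>
    intro L f h
    rw [List.ofFn_succ, List.flatten_cons, Fin.sum_univ_succ, ← acc_mul]
    exact (h 0).acc.mul (ih fun j => h j.succ)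

theorem PF.sum_fin {m : ℕ} {L : Fin m → List (Fin n)}
    {f : Fin m → MvPolynomial (Fin n) ℂ} (h : ∀ j, PF ι (L j) (f j)) :
    PF (Fin 2 ⊕ ι) (List.ofFn L).flatten (∑ j, f j) := by
  refine ⟨_, Sum.elim (Pi.single 0 1) 0, Sum.elim (Pi.single 1 1) 0, acc_fin h, ?_⟩
  simp [RK.acc, Fintype.sum_sum_type]

end Pool.Agent.Helper4.RK
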